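import Mathlib

set_option autoImplicit false

open MeasureTheory Set
open scoped ENNReal Pointwise

namespace Pool.Agent.P.MP_91dfc6_pr

/-- One-dimensional Brunn-Minkowski inequality for compact sets. -/
lemma bm_compact {K L C : Set ℝ} (hK : IsCompact K) (hL : IsCompact L) (hKn : K.Nonempty)
    (hLn : L.Nonempty) (h : ∀ a ∈ K, ∀ b ∈ L, a + b ∈ C) :
    volume K + volume L ≤ volume C := by
  obtain ⟨k, hk, hkmax⟩ := hK.exists_isMaxOn hKn (continuousOn_id (s := K))
  obtain ⟨l, hl, hlmin⟩ := hL.exists_isMinOn hLn (continuousOn_id (s := L))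
  set K' : Set ℝ := (fun x => x + (-l)) ⁻¹' K with hK'
  set L' : Set ℝ := (fun x => x + (-k)) ⁻¹' L with hL'
  have hvK : volume K' = volume K := measure_preimage_add_right _ _ _
  have hvL : volume L' = volume L := measure_preimage_add_right _ _ _
  have hL'm : MeasurableSet L' := (measurable_add_const _) hL.measurableSet
  have hsub : K' ∪ L' ⊆ C := by
    rintro x (hx | hx)
    · have := h _ hx _ hl
      simpa using this
    · have := h _ hk _ hx
      have e : k + (x + -k) = x := by ring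
      rwa [e] at this
  have hdisj : AEDisjoint volume K' L' := by
    have : K' ∩ L' ⊆ {k + l} := by
      rintro x ⟨hx1, hx2⟩
      have h1 : x + -l ≤ k := hkmax hx1
      have h2 : l ≤ x + -k := hlmin hx2
      have : x = k + l := by linarith
      exact this
    exact measure_mono_null this (by simp)
  calc volume K + volume L = volume K' + volume L' := by rw [hvK, hvL]
    _ = volume (K' ∪ L') := (measure_union₀ hL'm.nullMeasurableSet hdisj).symm
    _ ≤ volume C := measure_mono hsub

lemma exists_compact_nonempty {A : Set ℝ} (hA : MeasurableSet A) (hAn : A.Nonempty) {r : ℝ≥0∞}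
    (hr : r < volume A) : ∃ K ⊆ A, IsCompact K ∧ K.Nonempty ∧ r < volume K := by
  obtain ⟨K, hKA, hK, hrK⟩ := hA.exists_lt_isCompact hr
  refine ⟨K, hKA, hK, ?_, hrK⟩
  rcases K.eq_empty_or_nonempty with rfl | h
  · simp at hrK
  · exact h

/-- One-dimensional Brunn-Minkowski inequality. -/
lemma bm {A B C : Set ℝ} (hA : MeasurableSet A) (hB : MeasurableSet B) (hAn : A.Nonempty)
    (hBn : B.Nonempty) (h : ∀ a ∈ A, ∀ b ∈ B, a + b ∈ C) :
    volume A + volume B ≤ volume C := by
  have key : ∀ K ⊆ A, IsCompact K → K.Nonempty → ∀ L ⊆ B, IsCompact L → L.Nonempty →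
      volume K + volume L ≤ volume C := fun K hKA hK hKn L hLB hL hLn =>
    bm_compact hK hL hKn hLn (fun a ha b hb => h a (hKA ha) b (hLB hb))
  obtain ⟨a, ha⟩ := hAn
  obtain ⟨b, hb⟩ := hBn
  have eA : volume A = ⨆ K : {K : Set ℝ // K ⊆ A ∧ IsCompact K ∧ K.Nonempty}, volume K.1 := by
    apply le_antisymm
    · apply le_of_forall_lt
      intro r hr
      obtain ⟨K, h1, h2, h3, h4⟩ := exists_compact_nonempty hA ⟨a, ha⟩ hr
      exact lt_iSup_iff.2 ⟨⟨K, h1, h2, h3⟩, h4⟩
    · exact iSup_le fun K => measure_mono K.2.1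
  have eB : volume B = ⨆ K : {K : Set ℝ // K ⊆ B ∧ IsCompact K ∧ K.Nonempty}, volume K.1 := by
    apply le_antisymm
    · apply le_of_forall_lt
      intro r hr
      obtain ⟨K, h1, h2, h3, h4⟩ := exists_compact_nonempty hB ⟨b, hb⟩ hr
      exact lt_iSup_iff.2 ⟨⟨K, h1, h2, h3⟩, h4⟩
    · exact iSup_le fun K => measure_mono K.2.1
  haveI : Nonempty {K : Set ℝ // K ⊆ A ∧ IsCompact K ∧ K.Nonempty} :=
    ⟨⟨{a}, by simpa using ha, isCompact_singleton, singleton_nonempty a⟩⟩
  haveI : Nonempty {K : Set ℝ // K ⊆ B ∧ IsCompact K ∧ K.Nonempty} :=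
    ⟨⟨{b}, by simpa using hb, isCompact_singleton, singleton_nonempty b⟩⟩
  rw [eA, eB]
  exact ENNReal.iSup_add_iSup_le fun K L => key K.1 K.2.1 K.2.2.1 K.2.2.2 L.1 L.2.1 L.2.2.1 L.2.2.2

lemma bm_scaled {t : ℝ} (ht0 : 0 < t) (ht1 : t < 1) {A B C : Set ℝ} (hA : MeasurableSet A)
    (hB : MeasurableSet B) (hAn : A.Nonempty) (hBn : B.Nonempty)
    (h : ∀ a ∈ A, ∀ b ∈ B, t * a + (1 - t) * b ∈ C) :
    ENNReal.ofReal t * volume A + ENNReal.ofReal (1 - t) * volume B ≤ volume C := by
  have h1t : 0 < 1 - t := by linarith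
  have e1 : volume (t • A) = ENNReal.ofReal t * volume A := by
    rw [Measure.addHaar_smul]; simp [abs_of_pos ht0]
  have e2 : volume ((1 - t) • B) = ENNReal.ofReal (1 - t) * volume B := by
    rw [Measure.addHaar_smul]; simp [abs_of_pos h1t]
  rw [← e1, ← e2]
  refine bm (hA.const_smul₀ t) (hB.const_smul₀ (1 - t)) hAn.smul_set hBn.smul_set ?_
  rintro _ ⟨a, ha, rfl⟩ _ ⟨b, hb, rfl⟩
  exact h a ha b hb

/-- One-dimensional Borell-Brascamp-Lieb inequality with exponent -1, bounded functions. -/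
lemma bbl {t : ℝ} (ht0 : 0 < t) (ht1 : t < 1) (u v w : ℝ → ℝ) (hu : Measurable u)
    (hv : Measurable v) (hw : Measurable w) (u0 : ∀ y, 0 ≤ u y) (v0 : ∀ y, 0 ≤ v y)
    (w0 : ∀ y, 0 ≤ w y) (ub : BddAbove (range u)) (vb : BddAbove (range v))
    (h : ∀ y y', 0 < u y → 0 < v y' →
      1 ≤ w (t * y + (1 - t) * y') * (t / u y + (1 - t) / v y')) :
    min (∫⁻ y, ENNReal.ofReal (u y)) (∫⁻ y, ENNReal.ofReal (v y)) ≤
      ∫⁻ y, ENNReal.ofReal (w y) := by
  have h1t : 0 < 1 - t := by linarith
  by_cases hu0 : ∀ y, u y = 0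
  · simp [hu0]
  by_cases hv0 : ∀ y, v y = 0
  · simp [hv0]
  push Not at hu0 hv0
  obtain ⟨y0, hy0⟩ := hu0
  obtain ⟨y1, hy1⟩ := hv0
  set U := sSup (range u) with hU
  set V := sSup (range v) with hV
  have uU : ∀ y, u y ≤ U := fun y => le_csSup ub ⟨y, rfl⟩
  have vV : ∀ y, v y ≤ V := fun y => le_csSup vb ⟨y, rfl⟩
  have U0 : 0 < U := lt_of_lt_of_le (lt_of_le_of_ne (u0 y0) (Ne.symm hy0)) (uU y0)
  have V0 : 0 < V := lt_of_lt_of_le (lt_of_le_of_ne (v0 y1) (Ne.symm hy1)) (vV y1)
  set c := t / U + (1 - t) / V with hc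
  have c0 : 0 < c := by positivity
  have lu := lintegral_eq_lintegral_meas_lt volume (f := fun y => u y / U)
    (Filter.Eventually.of_forall fun y => div_nonneg (u0 y) U0.le)
    (hu.div_const U).aemeasurable
  have lv := lintegral_eq_lintegral_meas_lt volume (f := fun y => v y / V)
    (Filter.Eventually.of_forall fun y => div_nonneg (v0 y) V0.le)
    (hv.div_const V).aemeasurable
  have lw := lintegral_eq_lintegral_meas_lt volume (f := fun y => w y * c)
    (Filter.Eventually.of_forall fun y => mul_nonneg (w0 y) c0.le)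
    (hw.mul_const c).aemeasurable
  have mu : Measurable fun θ : ℝ => volume {a : ℝ | θ < u a / U} :=
    Antitone.measurable fun a b hab => measure_mono fun x hx => lt_of_le_of_lt hab hx
  have mv : Measurable fun θ : ℝ => volume {a : ℝ | θ < v a / V} :=
    Antitone.measurable fun a b hab => measure_mono fun x hx => lt_of_le_of_lt hab hx
  have pt : ∀ θ ∈ Ioi (0 : ℝ), ENNReal.ofReal t * volume {a : ℝ | θ < u a / U} +
      ENNReal.ofReal (1 - t) * volume {a : ℝ | θ < v a / V} ≤ volume {a : ℝ | θ < w a * c} := by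
    intro θ hθ
    have hθ0 : 0 < θ := hθ
    rcases lt_or_ge θ 1 with h1 | h1
    · apply bm_scaled ht0 ht1 (measurableSet_lt measurable_const (hu.div_const U))
        (measurableSet_lt measurable_const (hv.div_const V))
      · have : θ * U < U := by nlinarith
        obtain ⟨_, ⟨y, rfl⟩, hy⟩ := exists_lt_of_lt_csSup (range_nonempty u) this
        exact ⟨y, by simp only [mem_ofPred_eq]; rwa [lt_div_iff₀ U0]⟩
      · have : θ * V < V := by nlinarith
        obtain ⟨_, ⟨y, rfl⟩, hy⟩ := exists_lt_of_lt_csSup (range_nonempty v) this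
        exact ⟨y, by simp only [mem_ofPred_eq]; rwa [lt_div_iff₀ V0]⟩
      · intro a ha b hb
        simp only [mem_ofPred_eq] at ha hb ⊢
        rw [lt_div_iff₀ U0] at ha
        rw [lt_div_iff₀ V0] at hb
        have hua : 0 < u a := lt_trans (by positivity) ha
        have hvb : 0 < v b := lt_trans (by positivity) hb
        have h2 := h a b hua hvb
        have h3 : t / u a < t / (θ * U) := div_lt_div_of_pos_left ht0 (by positivity) ha
        have h4 : (1 - t) / v b < (1 - t) / (θ * V) :=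
          div_lt_div_of_pos_left h1t (by positivity) hb
        have h5 : t / (θ * U) + (1 - t) / (θ * V) = c / θ := by
          rw [hc]; field_simp
        have hwpos : 0 < w (t * a + (1 - t) * b) := by
          rcases (w0 (t * a + (1 - t) * b)).eq_or_lt with h0 | h0
          · rw [← h0] at h2; norm_num at h2
          · exact h0
        have h6 : 1 < w (t * a + (1 - t) * b) * (c / θ) := by
          calc 1 ≤ _ := h2
            _ < w (t * a + (1 - t) * b) * (c / θ) := by
              apply mul_lt_mul_of_pos_left _ hwpos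
              linarith
        rw [← mul_div_assoc, lt_div_iff₀ hθ0] at h6
        linarith
    · have e1 : {a : ℝ | θ < u a / U} = ∅ := by
        ext a
        simp only [mem_ofPred_eq, mem_empty_iff_false, iff_false, not_lt]
        exact le_trans ((div_le_one U0).2 (uU a)) h1
      have e2 : {a : ℝ | θ < v a / V} = ∅ := by
        ext a
        simp only [mem_ofPred_eq, mem_empty_iff_false, iff_false, not_lt]
        exact le_trans ((div_le_one V0).2 (vV a)) h1
      simp [e1, e2]
  have main : ENNReal.ofReal t * (∫⁻ y, ENNReal.ofReal (u y / U)) +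
      ENNReal.ofReal (1 - t) * (∫⁻ y, ENNReal.ofReal (v y / V)) ≤
      ∫⁻ y, ENNReal.ofReal (w y * c) := by
    rw [lu, lv, lw, ← lintegral_const_mul _ mu, ← lintegral_const_mul _ mv,
      ← lintegral_add_left (mu.const_mul _)]
    exact setLIntegral_mono' measurableSet_Ioi pt
  have eu : (∫⁻ y, ENNReal.ofReal (u y / U)) =
      ENNReal.ofReal U⁻¹ * ∫⁻ y, ENNReal.ofReal (u y) := by
    rw [← lintegral_const_mul _ hu.ennreal_ofReal]
    congr 1; ext y
    rw [← ENNReal.ofReal_mul (by positivity)]; congr 1; field_simp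
  have ev : (∫⁻ y, ENNReal.ofReal (v y / V)) =
      ENNReal.ofReal V⁻¹ * ∫⁻ y, ENNReal.ofReal (v y) := by
    rw [← lintegral_const_mul _ hv.ennreal_ofReal]
    congr 1; ext y
    rw [← ENNReal.ofReal_mul (by positivity)]; congr 1; field_simp
  have ew : (∫⁻ y, ENNReal.ofReal (w y * c)) =
      ENNReal.ofReal c * ∫⁻ y, ENNReal.ofReal (w y) := by
    rw [← lintegral_const_mul _ hw.ennreal_ofReal]
    congr 1; ext y
    rw [← ENNReal.ofReal_mul (by positivity)]; congr 1; ring
  rw [eu, ev, ew] at main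
  set m := min (∫⁻ y, ENNReal.ofReal (u y)) (∫⁻ y, ENNReal.ofReal (v y)) with hm
  have hm2 : ENNReal.ofReal c * m ≤ ENNReal.ofReal c * ∫⁻ y, ENNReal.ofReal (w y) := by
    refine le_trans ?_ main
    have : ENNReal.ofReal c = ENNReal.ofReal t * ENNReal.ofReal U⁻¹ +
        ENNReal.ofReal (1 - t) * ENNReal.ofReal V⁻¹ := by
      rw [← ENNReal.ofReal_mul ht0.le, ← ENNReal.ofReal_mul h1t.le,
        ← ENNReal.ofReal_add (by positivity) (by positivity), hc]
      congr 1
    rw [this, add_mul, mul_assoc, mul_assoc]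
    gcongr
    · exact min_le_left _ _
    · exact min_le_right _ _
  exact (ENNReal.mul_le_mul_iff_right (by simpa using c0) ENNReal.ofReal_ne_top).1 hm2

end Pool.Agent.P.MP_91dfc6_pr
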