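import Mathlib
import Pool.Agent.P.MP_91dfc6_pr.BM

set_option autoImplicit false

open MeasureTheory Set Real
open scoped ENNReal Pointwise

namespace Pool.Agent.P.MP_91dfc6_pr

/-- Cauchy density. -/
noncomputable def rho (y : ℝ) : ℝ := π⁻¹ * (1 + y ^ 2)⁻¹

/-- Uniform density on the interval from -1 to 1. -/
noncomputable def fU (x : ℝ) : ℝ≥0∞ := (Icc (-1 : ℝ) 1).indicator (fun _ => 2⁻¹) x

noncomputable def fC (y : ℝ) : ℝ≥0∞ := ENNReal.ofReal (rho y)

noncomputable def mU : Measure ℝ := volume.withDensity fU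

noncomputable def mC : Measure ℝ := volume.withDensity fC

noncomputable def mu2 : Measure (Fin 2 → ℝ) :=
  (mU.prod mC).map (MeasurableEquiv.finTwoArrow (α := ℝ)).symm

lemma rho_pos (y : ℝ) : 0 < rho y := by unfold rho; positivity

lemma measurable_rho : Measurable rho := by unfold rho; fun_prop

lemma measurable_fU : Measurable fU := by
  unfold fU
  exact measurable_const.indicator measurableSet_Icc

lemma measurable_fC : Measurable fC := measurable_rho.ennreal_ofReal

lemma rho_le (y : ℝ) : rho y ≤ 2⁻¹ := by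
  unfold rho
  have h1 : π⁻¹ ≤ 2⁻¹ := inv_anti₀ (by norm_num) two_le_pi
  have h2 : (1 + y ^ 2)⁻¹ ≤ 1 := inv_le_one_of_one_le₀ (by nlinarith [sq_nonneg y])
  calc π⁻¹ * (1 + y ^ 2)⁻¹ ≤ 2⁻¹ * 1 := by gcongr
    _ = 2⁻¹ := by ring

lemma fU_le (x : ℝ) : fU x ≤ 2⁻¹ := by
  unfold fU
  exact indicator_le_self' (fun _ _ => by simp) x

lemma fC_le (x : ℝ) : fC x ≤ 2⁻¹ := by
  unfold fC
  calc ENNReal.ofReal (rho x) ≤ ENNReal.ofReal 2⁻¹ := ENNReal.ofReal_le_ofReal (rho_le x)
    _ = 2⁻¹ := by rw [ENNReal.ofReal_inv_of_pos (by norm_num)]; simp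

lemma mU_apply {S : Set ℝ} (hS : MeasurableSet S) :
    mU S = 2⁻¹ * volume (S ∩ Icc (-1 : ℝ) 1) := by
  unfold mU fU
  rw [withDensity_apply _ hS, lintegral_indicator measurableSet_Icc, setLIntegral_const,
    Measure.restrict_apply measurableSet_Icc, inter_comm]

instance : IsProbabilityMeasure mU := by
  constructor
  rw [mU_apply MeasurableSet.univ, univ_inter, Real.volume_Icc]
  have : ENNReal.ofReal (1 - -1) = 2 := by norm_num
  rw [this]
  exact ENNReal.inv_mul_cancel (by norm_num) (by norm_num)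

instance : IsProbabilityMeasure mC := by
  constructor
  unfold mC fC
  rw [withDensity_apply _ MeasurableSet.univ, Measure.restrict_univ,
    ← ofReal_integral_eq_lintegral_ofReal]
  · unfold rho
    rw [integral_const_mul, integral_univ_inv_one_add_sq, inv_mul_cancel₀ pi_ne_zero]
    simp
  · exact integrable_inv_one_add_sq.const_mul _
  · exact Filter.Eventually.of_forall fun y => (rho_pos y).le

instance : IsProbabilityMeasure mu2 := by
  unfold mu2
  exact Measure.isProbabilityMeasure_map (MeasurableEquiv.measurable _).aemeasurable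

lemma mu2_ac : mu2 ≪ volume := by
  unfold mu2
  have h1 : mU.prod mC ≪ (volume : Measure ℝ).prod volume :=
    (withDensity_absolutelyContinuous _ _).prod (withDensity_absolutelyContinuous _ _)
  have h2 := h1.map (MeasurableEquiv.finTwoArrow (α := ℝ)).symm.measurable
  have h3 : Measure.map (MeasurableEquiv.finTwoArrow (α := ℝ)).symm
      ((volume : Measure ℝ).prod volume) = volume :=
    (volume_preserving_finTwoArrow ℝ).symm.map_eq
  rwa [h3] at h2

lemma map_neg_withDensity {f : ℝ → ℝ≥0∞} (he : ∀ x, f (-x) = f x) :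
    (volume.withDensity f).map (fun x : ℝ => -x) = volume.withDensity f := by
  ext S hS
  have hS' : MeasurableSet ((fun x : ℝ => -x) ⁻¹' S) := measurable_neg hS
  rw [Measure.map_apply measurable_neg hS, withDensity_apply _ hS', withDensity_apply _ hS,
    ← lintegral_indicator hS', ← lintegral_indicator hS,
    ← lintegral_neg_eq_self (S.indicator f)]
  congr 1; ext x
  by_cases hx : -x ∈ S
  · simp [hx, he]
  · simp [hx]

lemma mU_neg : mU.map (fun x : ℝ => -x) = mU := by
  apply map_neg_withDensity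
  intro x
  unfold fU
  by_cases hx : x ∈ Icc (-1 : ℝ) 1
  · have : -x ∈ Icc (-1 : ℝ) 1 := ⟨by linarith [hx.2], by linarith [hx.1]⟩
    simp [hx, this]
  · have : -x ∉ Icc (-1 : ℝ) 1 := fun h => hx ⟨by linarith [h.2], by linarith [h.1]⟩
    simp [hx, this]

lemma mC_neg : mC.map (fun x : ℝ => -x) = mC := by
  apply map_neg_withDensity
  intro x
  simp [fC, rho]

lemma mu2_neg : mu2.map (fun x => -x) = mu2 := by
  unfold mu2
  have h : mU.prod mC = (mU.prod mC).map (Prod.map (fun x : ℝ => -x) (fun x : ℝ => -x)) := by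
    rw [← Measure.map_prod_map _ _ measurable_neg measurable_neg, mU_neg, mC_neg]
  rw [Measure.map_map measurable_neg (MeasurableEquiv.measurable _)]
  conv_rhs => rw [h]
  rw [Measure.map_map (MeasurableEquiv.measurable _) (measurable_neg.prodMap measurable_neg)]
  congr 1
  ext p i
  fin_cases i <;> simp [MeasurableEquiv.finTwoArrow]

/-- Horizontal section of a planar set inside the strip. -/
def sec (S : Set (Fin 2 → ℝ)) (y : ℝ) : Set ℝ := {x | ![x, y] ∈ S} ∩ Icc (-1 : ℝ) 1

lemma measurable_vec : Measurable fun p : ℝ × ℝ => (![p.1, p.2] : Fin 2 → ℝ) := by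
  apply measurable_pi_lambda
  intro i
  fin_cases i
  · simpa using measurable_fst
  · simpa using measurable_snd

lemma measurableSet_sec {S : Set (Fin 2 → ℝ)} (hS : MeasurableSet S) (y : ℝ) :
    MeasurableSet (sec S y) := by
  refine MeasurableSet.inter ?_ measurableSet_Icc
  exact (measurable_vec.comp (measurable_id.prodMk measurable_const)) hS

lemma vol_sec_le (S : Set (Fin 2 → ℝ)) (y : ℝ) : volume (sec S y) ≤ 2 := by
  calc volume (sec S y) ≤ volume (Icc (-1 : ℝ) 1) := measure_mono inter_subset_right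
    _ = 2 := by rw [Real.volume_Icc]; norm_num

lemma vol_sec_ne_top (S : Set (Fin 2 → ℝ)) (y : ℝ) : volume (sec S y) ≠ ⊤ :=
  ne_top_of_le_ne_top (by norm_num) (vol_sec_le S y)

lemma measurable_vol_sec {S : Set (Fin 2 → ℝ)} (hS : MeasurableSet S) :
    Measurable fun y => volume (sec S y) := by
  have h : MeasurableSet ((fun p : ℝ × ℝ => (![p.1, p.2] : Fin 2 → ℝ)) ⁻¹' S ∩
      (Icc (-1 : ℝ) 1) ×ˢ univ) :=
    (measurable_vec hS).inter (measurableSet_Icc.prod MeasurableSet.univ)
  have := measurable_measure_prodMk_right (μ := (volume : Measure ℝ)) h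
  convert this using 3 with y
  ext x
  simp [sec]

/-- The function whose integral is the measure of a planar set. -/
noncomputable def wt (S : Set (Fin 2 → ℝ)) (y : ℝ) : ℝ :=
  2⁻¹ * (volume (sec S y)).toReal * rho y

lemma measurable_wt {S : Set (Fin 2 → ℝ)} (hS : MeasurableSet S) : Measurable (wt S) :=
  ((measurable_vol_sec hS).ennreal_toReal.const_mul _).mul measurable_rho

lemma wt_nonneg (S : Set (Fin 2 → ℝ)) (y : ℝ) : 0 ≤ wt S y := by
  unfold wt
  have := rho_pos y
  positivity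

lemma wt_bdd (S : Set (Fin 2 → ℝ)) : BddAbove (range (wt S)) := by
  refine ⟨1, ?_⟩
  rintro _ ⟨y, rfl⟩
  unfold wt
  have h1 : (volume (sec S y)).toReal ≤ 2 := by
    have := ENNReal.toReal_mono (by norm_num) (vol_sec_le S y)
    simpa using this
  have h2 := rho_le y
  have h3 := rho_pos y
  have h4 : 0 ≤ (volume (sec S y)).toReal := ENNReal.toReal_nonneg
  nlinarith

lemma mu2_apply {S : Set (Fin 2 → ℝ)} (hS : MeasurableSet S) :
    mu2 S = ∫⁻ y, ENNReal.ofReal (wt S y) := by
  unfold mu2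
  rw [Measure.map_apply (MeasurableEquiv.measurable _) hS,
    Measure.prod_apply_symm ((MeasurableEquiv.measurable _) hS)]
  have e : ∀ y : ℝ, mU ((fun x => (x, y)) ⁻¹'
      ((MeasurableEquiv.finTwoArrow (α := ℝ)).symm ⁻¹' S)) = 2⁻¹ * volume (sec S y) := by
    intro y
    rw [mU_apply]
    · rfl
    · exact measurable_prodMk_right ((MeasurableEquiv.measurable _) hS)
  simp_rw [e]
  unfold mC
  rw [lintegral_withDensity_eq_lintegral_mul _ measurable_fC
    ((measurable_vol_sec hS).const_mul _)]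
  congr 1; ext y
  simp only [Pi.mul_apply, wt, fC]
  rw [ENNReal.ofReal_mul (by positivity), ENNReal.ofReal_mul (by positivity),
    ENNReal.ofReal_toReal (vol_sec_ne_top S y), ENNReal.ofReal_inv_of_pos (by norm_num)]
  simp [mul_comm]

lemma real_ineq {t a b c y y' : ℝ} (ht0 : 0 < t) (ht1 : t < 1) (ha : 0 < a) (hb : 0 < b)
    (hc : t * a + (1 - t) * b ≤ c) :
    1 ≤ 2⁻¹ * c * rho (t * y + (1 - t) * y') *
      (t / (2⁻¹ * a * rho y) + (1 - t) / (2⁻¹ * b * rho y')) := by
  have h1t : 0 < 1 - t := by linarith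
  unfold rho
  have hpi := pi_pos
  set z := t * y + (1 - t) * y' with hz
  have e : 2⁻¹ * c * (π⁻¹ * (1 + z ^ 2)⁻¹) *
      (t / (2⁻¹ * a * (π⁻¹ * (1 + y ^ 2)⁻¹)) + (1 - t) / (2⁻¹ * b * (π⁻¹ * (1 + y' ^ 2)⁻¹))) =
      c * (t * (1 + y ^ 2) / a + (1 - t) * (1 + y' ^ 2) / b) / (1 + z ^ 2) := by
    field_simp
  rw [e, le_div_iff₀ (by positivity), one_mul]
  have h2 : 1 + z ^ 2 ≤
      (t * a + (1 - t) * b) * (t * (1 + y ^ 2) / a + (1 - t) * (1 + y' ^ 2) / b) := by
    have e2 : (t * a + (1 - t) * b) * (t * (1 + y ^ 2) / a + (1 - t) * (1 + y' ^ 2) / b) -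
        (1 + z ^ 2) = t * (1 - t) * ((a - b) ^ 2 + (a * y' - b * y) ^ 2) / (a * b) := by
      rw [hz]; field_simp; ring
    have : 0 ≤ t * (1 - t) * ((a - b) ^ 2 + (a * y' - b * y) ^ 2) / (a * b) := by positivity
    linarith
  refine le_trans h2 ?_
  gcongr

lemma mu2_concave {A B : Set (Fin 2 → ℝ)} (hA : MeasurableSet A) (hB : MeasurableSet B)
    (hAn : A.Nonempty) (hBn : B.Nonempty) {t : ℝ} (ht0 : 0 ≤ t) (ht1 : t ≤ 1) :
    min (mu2 A) (mu2 B) ≤ mu2 (t • A + (1 - t) • B) := by
  rcases ht0.eq_or_lt with rfl | ht0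
  · have : B ⊆ (0 : ℝ) • A + (1 - 0 : ℝ) • B := by
      intro b hb
      obtain ⟨a, ha⟩ := hAn
      exact ⟨(0 : ℝ) • a, smul_mem_smul_set ha, (1 - 0 : ℝ) • b, smul_mem_smul_set hb, by simp⟩
    exact le_trans (min_le_right _ _) (measure_mono this)
  rcases ht1.eq_or_lt with rfl | ht1
  · have : A ⊆ (1 : ℝ) • A + (1 - 1 : ℝ) • B := by
      intro a ha
      obtain ⟨b, hb⟩ := hBn
      exact ⟨(1 : ℝ) • a, smul_mem_smul_set ha, (1 - 1 : ℝ) • b, smul_mem_smul_set hb, by simp⟩
    exact le_trans (min_le_left _ _) (measure_mono this)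
  have h1t : 0 < 1 - t := by linarith
  set C := toMeasurable mu2 (t • A + (1 - t) • B) with hC
  have hCm : MeasurableSet C := measurableSet_toMeasurable _ _
  rw [← measure_toMeasurable (t • A + (1 - t) • B), ← hC, mu2_apply hA, mu2_apply hB,
    mu2_apply hCm]
  refine bbl ht0 ht1 _ _ _ (measurable_wt hA) (measurable_wt hB) (measurable_wt hCm)
    (wt_nonneg A) (wt_nonneg B) (wt_nonneg C) (wt_bdd A) (wt_bdd B) ?_
  intro y y' hy hy'
  have pos : ∀ (S : Set (Fin 2 → ℝ)) (y : ℝ), 0 < wt S y → 0 < (volume (sec S y)).toReal := by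
    intro S y h
    unfold wt at h
    have h4 : 0 ≤ (volume (sec S y)).toReal := ENNReal.toReal_nonneg
    rcases h4.eq_or_lt with h0 | h0
    · rw [← h0] at h; simp at h
    · exact h0
  have ne : ∀ (S : Set (Fin 2 → ℝ)) (y : ℝ), 0 < wt S y → (sec S y).Nonempty := by
    intro S y h
    have := pos S y h
    rcases (sec S y).eq_empty_or_nonempty with h0 | h0
    · rw [h0] at this; simp at this
    · exact h0
  have hbm := bm_scaled (C := sec C (t * y + (1 - t) * y')) ht0 ht1 (measurableSet_sec hA y)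
    (measurableSet_sec hB y') (ne A y hy) (ne B y' hy') (by
      rintro a ⟨ha, ha1, ha2⟩ b ⟨hb, hb1, hb2⟩
      refine ⟨?_, by nlinarith, by nlinarith⟩
      apply subset_toMeasurable
      refine ⟨t • ![a, y], smul_mem_smul_set ha, (1 - t) • ![b, y'], smul_mem_smul_set hb, ?_⟩
      ext i
      fin_cases i <;> simp)
  unfold wt
  apply real_ineq ht0 ht1 (pos A y hy) (pos B y' hy')
  have := ENNReal.toReal_mono (vol_sec_ne_top C _) hbm
  rwa [ENNReal.toReal_add (ENNReal.mul_ne_top ENNReal.ofReal_ne_top (vol_sec_ne_top _ _))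
    (ENNReal.mul_ne_top ENNReal.ofReal_ne_top (vol_sec_ne_top _ _)), ENNReal.toReal_mul,
    ENNReal.toReal_mul, ENNReal.toReal_ofReal ht0.le, ENNReal.toReal_ofReal h1t.le] at this

end Pool.Agent.P.MP_91dfc6_pr
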