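import Mathlib
import Pool.Agent.P.MP_91dfc6_pr.Ex

set_option autoImplicit false

open MeasureTheory Set Real
open scoped ENNReal Pointwise

namespace Pool.Agent.P.MP_91dfc6_pr

/-- Density of `a X + b Y` for independent `X` with density `f` and `Y` with law `Q`. -/
noncomputable def dens (f : ℝ → ℝ≥0∞) (Q : Measure ℝ) (a b t : ℝ) : ℝ≥0∞ :=
  ∫⁻ y, ENNReal.ofReal |a⁻¹| * f ((t - b * y) / a) ∂Q

lemma measurable_dens_aux {f : ℝ → ℝ≥0∞} (hf : Measurable f) (a b : ℝ) :
    Measurable fun p : ℝ × ℝ => ENNReal.ofReal |a⁻¹| * f ((p.1 - b * p.2) / a) := by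
  fun_prop

lemma measurable_dens {f : ℝ → ℝ≥0∞} (hf : Measurable f) (Q : Measure ℝ) [SFinite Q]
    (a b : ℝ) : Measurable (dens f Q a b) :=
  (measurable_dens_aux hf a b).lintegral_prod_right'

lemma lintegral_affine {G : ℝ → ℝ≥0∞} (hG : Measurable G) {a : ℝ} (ha : a ≠ 0) (c : ℝ) :
    ∫⁻ x, G (a * x + c) = ENNReal.ofReal |a⁻¹| * ∫⁻ t, G t := by
  have h1 : ∫⁻ x, G (a * x + c) = ∫⁻ s, G (s + c) ∂(Measure.map (a * ·) volume) := by
    rw [lintegral_map (by fun_prop) (by fun_prop)]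
  rw [h1, Real.map_volume_mul_left ha, lintegral_smul_measure, lintegral_add_right_eq_self]
  rfl

lemma map_prod_eq {f : ℝ → ℝ≥0∞} (hf : Measurable f) (Q : Measure ℝ) [SFinite Q]
    {a : ℝ} (ha : a ≠ 0) (b : ℝ) :
    ((volume.withDensity f).prod Q).map (fun p : ℝ × ℝ => a * p.1 + b * p.2) =
      volume.withDensity (dens f Q a b) := by
  ext S hS
  have hm : Measurable fun p : ℝ × ℝ => a * p.1 + b * p.2 := by fun_prop
  rw [Measure.map_apply hm hS, Measure.prod_apply_symm (hm hS), withDensity_apply _ hS]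
  have e : ∀ y : ℝ, (volume.withDensity f)
      ((fun x => (x, y)) ⁻¹' ((fun p : ℝ × ℝ => a * p.1 + b * p.2) ⁻¹' S)) =
      ∫⁻ t in S, ENNReal.ofReal |a⁻¹| * f ((t - b * y) / a) := by
    intro y
    have hm2 : MeasurableSet
        ((fun x => (x, y)) ⁻¹' ((fun p : ℝ × ℝ => a * p.1 + b * p.2) ⁻¹' S)) :=
      measurable_prodMk_right (hm hS)
    have hG : Measurable (S.indicator fun t => f ((t - b * y) / a)) :=
      Measurable.indicator (by fun_prop) hS
    rw [withDensity_apply _ hm2, ← lintegral_indicator hm2, lintegral_const_mul _ (by fun_prop),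
      ← lintegral_indicator hS, ← lintegral_affine hG ha (b * y)]
    congr 1; ext x
    by_cases hx : a * x + b * y ∈ S
    · have : a * x / a = x := by field_simp
      simp [hx, this]
    · simp [hx]
  simp_rw [e]
  unfold dens
  rw [lintegral_lintegral_swap]
  exact ((measurable_dens_aux hf a b).comp measurable_swap).aemeasurable

lemma dens_le {f : ℝ → ℝ≥0∞} (hf : ∀ x, f x ≤ 2⁻¹) (Q : Measure ℝ) [IsProbabilityMeasure Q]
    (a b t : ℝ) : dens f Q a b t ≤ ENNReal.ofReal |a⁻¹| * 2⁻¹ := by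
  unfold dens
  calc ∫⁻ y, ENNReal.ofReal |a⁻¹| * f ((t - b * y) / a) ∂Q
      ≤ ∫⁻ _, ENNReal.ofReal |a⁻¹| * 2⁻¹ ∂Q := by
        apply lintegral_mono
        intro y
        exact mul_le_mul_right (hf _) _
    _ = _ := by simp

/-- The densities of the one-dimensional marginals of `mu2`. -/
noncomputable def gg (v : Fin 2 → ℝ) : ℝ → ℝ≥0∞ :=
  if v 0 = 0 then dens fC mU (v 1) (v 0) else dens fU mC (v 0) (v 1)

lemma measurable_gg (v : Fin 2 → ℝ) : Measurable (gg v) := by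
  unfold gg
  split_ifs
  · exact measurable_dens measurable_fC _ _ _
  · exact measurable_dens measurable_fU _ _ _

lemma map_mu2_aux (v : Fin 2 → ℝ) : mu2.map (fun x => ∑ i, v i * x i) =
    (mU.prod mC).map (fun p : ℝ × ℝ => v 0 * p.1 + v 1 * p.2) := by
  unfold mu2
  rw [Measure.map_map (by fun_prop) (MeasurableEquiv.measurable _)]
  congr 1
  ext p
  simp [MeasurableEquiv.finTwoArrow]

lemma map_mu2 {v : Fin 2 → ℝ} (hv : v ≠ 0) :
    mu2.map (fun x => ∑ i, v i * x i) = volume.withDensity (gg v) := by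
  rw [map_mu2_aux]
  unfold gg
  split_ifs with h0
  · have h1 : v 1 ≠ 0 := by
      intro h1
      apply hv
      ext i
      fin_cases i
      · exact h0
      · exact h1
    rw [← map_prod_eq measurable_fC mU h1 (v 0), ← Measure.prod_swap,
      Measure.map_map (by fun_prop) measurable_swap]
    unfold mC
    congr 1
    ext p
    simp [add_comm]
  · rw [← map_prod_eq measurable_fU mC h0 (v 1)]
    rfl

lemma lintegral_gg {v : Fin 2 → ℝ} (hv : v ≠ 0) : ∫⁻ t, gg v t = 1 := by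
  have h := map_mu2 hv
  have : IsProbabilityMeasure (mu2.map (fun x => ∑ i, v i * x i)) :=
    Measure.isProbabilityMeasure_map (Measurable.aemeasurable (by fun_prop))
  have h2 := this.measure_univ
  rwa [h, withDensity_apply _ MeasurableSet.univ, Measure.restrict_univ] at h2

lemma gg_bdd (v : Fin 2 → ℝ) : ∃ c : ℝ≥0∞, c ≠ ⊤ ∧ ∀ t, gg v t ≤ c := by
  unfold gg
  split_ifs
  · exact ⟨_, ENNReal.mul_ne_top ENNReal.ofReal_ne_top (by norm_num), dens_le fC_le _ _ _⟩
  · exact ⟨_, ENNReal.mul_ne_top ENNReal.ofReal_ne_top (by norm_num), dens_le fU_le _ _ _⟩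

/-- The squared L2 norm of the marginal density. -/
noncomputable def II (v : Fin 2 → ℝ) : ℝ≥0∞ := ∫⁻ t, gg v t * gg v t

lemma II_ne_top {v : Fin 2 → ℝ} (hv : v ≠ 0) : II v ≠ ⊤ := by
  obtain ⟨c, hc, h⟩ := gg_bdd v
  have : II v ≤ c := by
    calc II v ≤ ∫⁻ t, c * gg v t := lintegral_mono fun t => mul_le_mul_left (h t) _
      _ = c := by rw [lintegral_const_mul _ (measurable_gg v), lintegral_gg hv, mul_one]
  exact ne_top_of_le_ne_top hc this

lemma II_ne_zero {v : Fin 2 → ℝ} (hv : v ≠ 0) : II v ≠ 0 := by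
  intro h
  unfold II at h
  have hmm : Measurable fun t => gg v t * gg v t := (measurable_gg v).mul (measurable_gg v)
  rw [lintegral_eq_zero_iff hmm] at h
  have : ∫⁻ t, gg v t = 0 := by
    rw [lintegral_eq_zero_iff (measurable_gg v)]
    filter_upwards [h] with t ht
    simpa using ht
  rw [lintegral_gg hv] at this
  exact one_ne_zero this

lemma II_u : II ![1, 0] = 2⁻¹ := by
  have e : ∀ t, gg ![1, 0] t = fU t := by
    intro t
    simp [gg, dens]
  unfold II
  simp_rw [e]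
  have e2 : ∀ t, fU t * fU t = (Icc (-1 : ℝ) 1).indicator (fun _ => (2⁻¹ * 2⁻¹ : ℝ≥0∞)) t := by
    intro t
    unfold fU
    by_cases ht : t ∈ Icc (-1 : ℝ) 1 <;> simp [ht]
  simp_rw [e2]
  rw [lintegral_indicator measurableSet_Icc, setLIntegral_const, Real.volume_Icc]
  have : ENNReal.ofReal (1 - -1) = 2 := by norm_num
  rw [this, mul_assoc, ENNReal.inv_mul_cancel (by norm_num) (by norm_num), mul_one]

lemma II_v {b : ℝ} (hb : 0 < b) : ENNReal.ofReal (1 / (32 * b)) ≤ II ![0, b] := by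
  have e : ∀ t ∈ Icc (-b) b, ENNReal.ofReal (1 / (8 * b)) ≤ gg ![0, b] t := by
    intro t ht
    have : gg ![0, b] t = ENNReal.ofReal |b⁻¹| * fC (t / b) := by
      simp [gg, dens]
    rw [this, fC, ← ENNReal.ofReal_mul (abs_nonneg _), abs_of_pos (inv_pos.2 hb)]
    apply ENNReal.ofReal_le_ofReal
    unfold rho
    have h1 : (t / b) ^ 2 ≤ 1 := by
      rw [div_pow, div_le_one (by positivity)]
      exact sq_le_sq' ht.1 ht.2
    have h2 : 4⁻¹ ≤ π⁻¹ := inv_anti₀ pi_pos pi_le_four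
    have h3 : 2⁻¹ ≤ (1 + (t / b) ^ 2)⁻¹ := inv_anti₀ (by positivity) (by linarith)
    calc 1 / (8 * b) = b⁻¹ * (4⁻¹ * 2⁻¹) := by field_simp; norm_num
      _ ≤ _ := by gcongr
  calc ENNReal.ofReal (1 / (32 * b))
      = ∫⁻ _ in Icc (-b) b, ENNReal.ofReal (1 / (8 * b)) * ENNReal.ofReal (1 / (8 * b)) := by
        rw [setLIntegral_const, Real.volume_Icc, ← ENNReal.ofReal_mul (by positivity),
          ← ENNReal.ofReal_mul (by positivity)]
        congr 1; field_simp; ring
    _ ≤ ∫⁻ t in Icc (-b) b, gg ![0, b] t * gg ![0, b] t :=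
        setLIntegral_mono' measurableSet_Icc fun t ht => mul_le_mul' (e t ht) (e t ht)
    _ ≤ II ![0, b] := setLIntegral_le_lintegral _ _

lemma mC_Ioi : mC (Ioi 0) ≤ 2⁻¹ := by
  have h1 : mC (Iio 0) = mC (Ioi 0) := by
    conv_rhs => rw [← mC_neg]
    rw [Measure.map_apply measurable_neg measurableSet_Ioi]
    congr 1
    ext x
    simp
  have h2 : mC (Iio 0) + mC (Ioi 0) ≤ 1 := by
    rw [← measure_union _ measurableSet_Ioi]
    · exact prob_le_one
    · exact disjoint_left.2 fun x h1 h2 => lt_asymm (mem_Iio.1 h1) (mem_Ioi.1 h2)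
  rw [h1, ← two_mul] at h2
  rw [ENNReal.le_inv_iff_mul_le, mul_comm]
  exact h2

lemma gg_w {b : ℝ} (t : ℝ) : gg ![1, b] t = ∫⁻ y, fU (t - b * y) ∂mC := by
  simp [gg, dens]

lemma gg_w_le {b : ℝ} (t : ℝ) : gg ![1, b] t ≤ 2⁻¹ := by
  rw [gg_w]
  calc ∫⁻ y, fU (t - b * y) ∂mC ≤ ∫⁻ _, 2⁻¹ ∂mC := lintegral_mono fun y => fU_le _
    _ = _ := by simp

lemma gg_w_le' {b : ℝ} (hb : 0 < b) {t : ℝ} (ht : 1 < t) : gg ![1, b] t ≤ 2⁻¹ * 2⁻¹ := by
  rw [gg_w]
  calc ∫⁻ y, fU (t - b * y) ∂mC ≤ ∫⁻ y, (Ioi (0 : ℝ)).indicator (fun _ => 2⁻¹) y ∂mC := by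
        apply lintegral_mono
        intro y
        by_cases hy : y ∈ Ioi (0 : ℝ)
        · simpa [hy] using fU_le (t - b * y)
        · have : t - b * y ∉ Icc (-1 : ℝ) 1 := by
            intro h
            have h1 : y ≤ 0 := not_lt.1 hy
            nlinarith [h.2]
          simp [fU, this]
    _ = 2⁻¹ * mC (Ioi 0) := by
        rw [lintegral_indicator measurableSet_Ioi, setLIntegral_const]
    _ ≤ _ := mul_le_mul_right mC_Ioi _

lemma tail_lower {b : ℝ} (hb : 0 < b) (hb1 : b ≤ 1) :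
    ENNReal.ofReal (b / 16 * Real.log (1 / b)) ≤ ∫⁻ t in Ioi 1, gg ![1, b] t := by
  have hv : (![1, b] : Fin 2 → ℝ) ≠ 0 := by
    intro h
    have := congrFun h 0
    simp at this
  have hm : Measurable fun p : ℝ × ℝ => (![1, b] : Fin 2 → ℝ) 0 * p.1 +
      (![1, b] : Fin 2 → ℝ) 1 * p.2 := by fun_prop
  rw [← withDensity_apply _ measurableSet_Ioi, ← map_mu2 hv, map_mu2_aux,
    Measure.map_apply hm measurableSet_Ioi, Measure.prod_apply_symm (hm measurableSet_Ioi)]
  have hb' : 1 ≤ 1 / b := by rw [le_div_iff₀ hb]; linarith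
  have hmeas := measurable_measure_prodMk_right (μ := mU) (hm (measurableSet_Ioi (a := (1 : ℝ))))
  unfold mC
  rw [lintegral_withDensity_eq_lintegral_mul _ measurable_fC hmeas]
  have hint : IntervalIntegrable (fun y : ℝ => b / 16 * (1 / y)) volume 1 (1 / b) := by
    apply ContinuousOn.intervalIntegrable
    apply ContinuousOn.mul continuousOn_const
    apply ContinuousOn.div continuousOn_const continuousOn_id
    intro x hx
    rw [uIcc_of_le hb'] at hx
    have := hx.1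
    simp only [id]
    linarith
  have e1 : b / 16 * Real.log (1 / b) = ∫ y in Ioc 1 (1 / b), b / 16 * (1 / y) := by
    rw [← intervalIntegral.integral_of_le hb', intervalIntegral.integral_const_mul,
      integral_one_div_of_pos one_pos (by positivity), div_one]
  rw [e1, ofReal_integral_eq_lintegral_ofReal hint.1]
  swap
  · rw [Filter.EventuallyLE, ae_restrict_iff' measurableSet_Ioc]
    refine Filter.Eventually.of_forall fun y hy => ?_
    have : 0 < y := lt_trans one_pos hy.1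
    simp only [Pi.zero_apply]
    positivity
  refine le_trans (setLIntegral_mono' measurableSet_Ioc ?_) (setLIntegral_le_lintegral _ _)
  intro y hy
  have hy0 : 0 < y := lt_trans one_pos hy.1
  have hby : b * y ≤ 1 := by
    have := hy.2
    rw [le_div_iff₀ hb] at this
    linarith
  have hby0 : 0 < b * y := by positivity
  simp only [Pi.mul_apply]
  have hs : MeasurableSet ((fun x : ℝ => (x, y)) ⁻¹' ((fun p : ℝ × ℝ =>
      (![1, b] : Fin 2 → ℝ) 0 * p.1 + (![1, b] : Fin 2 → ℝ) 1 * p.2) ⁻¹' Ioi 1)) :=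
    measurable_prodMk_right (hm measurableSet_Ioi)
  rw [mU_apply hs]
  have hsub : Ioc (1 - b * y) 1 ⊆ ((fun x : ℝ => (x, y)) ⁻¹' ((fun p : ℝ × ℝ =>
      (![1, b] : Fin 2 → ℝ) 0 * p.1 + (![1, b] : Fin 2 → ℝ) 1 * p.2) ⁻¹' Ioi 1)) ∩
      Icc (-1 : ℝ) 1 := by
    intro x hx
    refine ⟨?_, by linarith [hx.1], hx.2⟩
    simp only [mem_preimage, mem_Ioi, Matrix.cons_val_zero, Matrix.cons_val_one]
    linarith [hx.1]
  have hvol := measure_mono (μ := (volume : Measure ℝ)) hsub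
  rw [Real.volume_Ioc] at hvol
  calc ENNReal.ofReal (b / 16 * (1 / y))
      ≤ ENNReal.ofReal (rho y * (2⁻¹ * (1 - (1 - b * y)))) := by
        apply ENNReal.ofReal_le_ofReal
        unfold rho
        have h2 : 4⁻¹ ≤ π⁻¹ := inv_anti₀ pi_pos pi_le_four
        have h3 : (2 * y ^ 2)⁻¹ ≤ (1 + y ^ 2)⁻¹ :=
          inv_anti₀ (by positivity) (by nlinarith [hy.1])
        calc b / 16 * (1 / y) = 4⁻¹ * (2 * y ^ 2)⁻¹ * (2⁻¹ * (1 - (1 - b * y))) := by
              field_simp; ring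
          _ ≤ _ := by
              have : 0 ≤ 2⁻¹ * (1 - (1 - b * y)) := by linarith
              gcongr
    _ = fC y * (2⁻¹ * ENNReal.ofReal (1 - (1 - b * y))) := by
        rw [ENNReal.ofReal_mul (rho_pos y).le, ENNReal.ofReal_mul (by norm_num),
          ENNReal.ofReal_inv_of_pos (by norm_num)]
        simp [fC]
    _ ≤ _ := by gcongr

lemma II_w {b : ℝ} (hb : 0 < b) (hb1 : b ≤ 1) :
    (II ![1, b]).toReal ≤ 2⁻¹ - b / 64 * Real.log (1 / b) := by
  have hv : (![1, b] : Fin 2 → ℝ) ≠ 0 := by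
    intro h
    have := congrFun h 0
    simp at this
  set P := ∫⁻ t in Ioi 1, gg ![1, b] t with hP
  set R := ∫⁻ t in (Ioi 1)ᶜ, gg ![1, b] t with hR
  have hPR : P + R = 1 := by
    rw [hP, hR, lintegral_add_compl _ measurableSet_Ioi, lintegral_gg hv]
  have hPt : P ≠ ⊤ := ne_top_of_le_ne_top ENNReal.one_ne_top (hPR ▸ le_self_add)
  have hRt : R ≠ ⊤ := ne_top_of_le_ne_top ENNReal.one_ne_top (hPR ▸ le_add_self)
  have h1 : II ![1, b] ≤ 2⁻¹ * 2⁻¹ * P + 2⁻¹ * R := by
    unfold II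
    rw [← lintegral_add_compl _ (measurableSet_Ioi (a := (1 : ℝ))), hP, hR,
      ← lintegral_const_mul _ (measurable_gg _), ← lintegral_const_mul _ (measurable_gg _)]
    apply add_le_add
    · exact setLIntegral_mono' measurableSet_Ioi fun t ht => mul_le_mul_left (gg_w_le' hb ht) _
    · exact lintegral_mono fun t => mul_le_mul_left (gg_w_le t) _
  have h2 := ENNReal.toReal_mono (by finiteness) h1
  rw [ENNReal.toReal_add (by finiteness) (by finiteness)] at h2
  simp only [ENNReal.toReal_mul, ENNReal.toReal_inv, ENNReal.toReal_ofNat] at h2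
  have h3 : P.toReal + R.toReal = 1 := by
    rw [← ENNReal.toReal_add hPt hRt, hPR]; simp
  have h4 : b / 16 * Real.log (1 / b) ≤ P.toReal :=
    (ENNReal.ofReal_le_iff_le_toReal hPt).1 (tail_lower hb hb1)
  linarith

lemma violation : ∃ u v : Fin 2 → ℝ, u ≠ 0 ∧ v ≠ 0 ∧ u + v ≠ 0 ∧
    ((II u).toReal)⁻¹ + ((II v).toReal)⁻¹ < ((II (u + v)).toReal)⁻¹ := by
  set b := Real.exp (-600) with hbdef
  have hb : 0 < b := Real.exp_pos _
  have hb1 : b ≤ 1 := Real.exp_le_one_iff.2 (by norm_num)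
  have hlog : Real.log (1 / b) = 600 := by
    rw [one_div, Real.log_inv, hbdef, Real.log_exp]; ring
  have hu : (![1, 0] : Fin 2 → ℝ) ≠ 0 := by
    intro h
    have := congrFun h 0
    simp at this
  have hv : (![0, b] : Fin 2 → ℝ) ≠ 0 := by
    intro h
    have := congrFun h 1
    simp at this
    exact hb.ne' this
  have hw : (![1, b] : Fin 2 → ℝ) ≠ 0 := by
    intro h
    have := congrFun h 0
    simp at this
  have hadd : (![1, 0] : Fin 2 → ℝ) + ![0, b] = ![1, b] := by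
    ext i
    fin_cases i <;> simp
  refine ⟨![1, 0], ![0, b], hu, hv, hadd ▸ hw, ?_⟩
  rw [hadd, II_u]
  have h1 : 1 / (32 * b) ≤ (II ![0, b]).toReal :=
    (ENNReal.ofReal_le_iff_le_toReal (II_ne_top hv)).1 (II_v hb)
  have h2 : ((II ![0, b]).toReal)⁻¹ ≤ 32 * b := by
    have := inv_anti₀ (by positivity) h1
    simpa using this
  have h3 := II_w hb hb1
  rw [hlog] at h3
  have h4 : 0 < (II ![1, b]).toReal := ENNReal.toReal_pos (II_ne_zero hw) (II_ne_top hw)
  have h5 : 2 + 32 * b < ((II ![1, b]).toReal)⁻¹ := by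
    rw [lt_inv_comm₀ (by positivity) h4]
    refine lt_of_le_of_lt h3 ?_
    rw [inv_eq_one_div (2 + 32 * b), lt_div_iff₀ (by positivity)]
    nlinarith
  simp only [ENNReal.toReal_inv, ENNReal.toReal_ofNat, inv_inv]
  linarith

end Pool.Agent.P.MP_91dfc6_pr
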